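import Pool.Agent.Y173.SH.Main

/-!
# Uniruledness of `(P^2, c (L_1 + ... + L_d))`: the exact answer

`L_1, ..., L_d` are lines in general position. If all coefficients are equal to `c`, then
`K + D` is not pseudo-effective if and only if `d c < 3`; the pair is uniruled if and only if
`d c < 3` and, for `d ≥ 7`, `c < 2 / (d - 1)`. In these cases lines or smooth conics (tangent to four
of the lines) are orbifold rational curves through a general point. So the implication in question
holds for `d` lines with equal coefficients if and only if `d ≤ 6`.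
-/

set_option autoImplicit false

namespace Pool.Agent.Results.MP_a78b9e_ag.EqualCoefficients

open Pool.Agent.H436R3 Pool.Agent.Y173.SH

/-- **(1)** For every `d` and every rational `0 < c ≤ 1` there is a smooth orbifold pair `(P^2, D)`
with support `d` lines in general position and all coefficients `c`.
**(2)** If all coefficients are `c`, then the following are equivalent: the pair is uniruled; through
a very general point passes an orbifold rational curve which is a line or a smooth conic;
`deg (K + D) < 0`, and `c < 2 / (d - 1)` if `d ≥ 7`.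
**(3)** If `d ≥ 7` and all coefficients (not necessarily equal) are at least `2 / (d - 1)`, then
there is no orbifold rational curve through a very general point.
**(4)** If all coefficients (not necessarily equal) are at most `c ≤ 1`, `d c < 3`, and
`c < 2 / (d - 1)` if `d ≥ 7`, then through a very general point passes an orbifold rational curve
which is a line or a smooth conic.
**(5)** For `d` lines with equal coefficients it is true that the pair is uniruled whenever `K + D`
is not pseudo-effective if and only if `d ≤ 6`. -/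
theorem result :
    (∀ (d : ℕ) (c : ℚ), 0 < c → c ≤ 1 → ∃ P : PlaneOrbifold d, ∀ j, P.c j = c) ∧
    (∀ (d : ℕ) (P : PlaneOrbifold d) (c : ℚ), (∀ j, P.c j = c) →
      List.TFAE [P.IsUniruled, VeryGeneral (LC P),
        P.degKD < 0 ∧ (7 ≤ d → c < 2 / (d - 1))]) ∧
    (∀ (d : ℕ) (P : PlaneOrbifold d), 7 ≤ d → (∀ j, (2 : ℚ) / (d - 1) ≤ P.c j) →
      ¬ P.IsUniruled ∧ VeryGeneral fun x => ¬ P.CurveThrough x) ∧
    (∀ (d : ℕ) (P : PlaneOrbifold d) (c : ℚ), (∀ j, P.c j ≤ c) → c ≤ 1 → d * c < 3 →
      (7 ≤ d → c < 2 / (d - 1)) → P.IsUniruled ∧ VeryGeneral (LC P)) ∧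
    ∀ d : ℕ, (∀ P : PlaneOrbifold d, (∀ i j, P.c i = P.c j) → P.degKD < 0 → P.IsUniruled) ↔
      d ≤ 6 := by
  have hex : ∀ (d : ℕ) (c : ℚ), 0 < c → c ≤ 1 → ∃ P : PlaneOrbifold d, ∀ j, P.c j = c :=
    fun d c h0 h1 => ⟨momentOrbifold d c h0 h1, fun _ => rfl⟩
  refine ⟨hex, fun d P c hc => classify P hc, fun d P hd hP => ?_, fun d P c hc hc1 h3 h7 => ?_,
    fun d => ⟨fun h => ?_, fun hd P hP hK => ?_⟩⟩
  · have h1 := veryGeneral_not hd P hP
    refine ⟨fun h => ?_, h1⟩
    obtain ⟨x, _, h2, h3⟩ := h.exists_common h1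
    exact h3 h2
  · have h1 := positive P hc hc1 h3 h7
    exact ⟨uniruled_of_LC h1, h1⟩
  · by_contra hcon
    have h7 : 7 ≤ d := by omega
    have hd0 : (7 : ℚ) ≤ d := by exact_mod_cast h7
    have hd1 : (0 : ℚ) < d - 1 := by linarith
    obtain ⟨P, hP⟩ := hex d (2 / (d - 1)) (by positivity) (by rw [div_le_one hd1]; linarith)
    have hK : P.degKD < 0 := by
      rw [degKD_eq P hP]
      have h2 : (d : ℚ) * (2 / (d - 1)) = 2 * d / (d - 1) := by ring
      rw [h2]
      have h3 : 2 * (d : ℚ) / (d - 1) < 3 := by
        rw [div_lt_iff₀ hd1]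
        linarith
      linarith
    have h1 := h P (fun i j => by rw [hP, hP]) hK
    have e1 : P.IsUniruled ↔ P.degKD < 0 ∧ (7 ≤ d → (2 : ℚ) / (d - 1) < 2 / (d - 1)) :=
      (classify P hP).out 0 2
    exact absurd ((e1.1 h1).2 h7) (lt_irrefl _)
  · rcases Nat.eq_zero_or_pos d with h0 | h0
    · subst h0
      exact uniruled_of_LC (positive P (c := 0) (fun j => j.elim0) zero_le_one (by simp) (by simp))
    · have e1 : P.IsUniruled ↔ P.degKD < 0 ∧ (7 ≤ d → P.c ⟨0, h0⟩ < 2 / (d - 1)) :=
        (classify P (c := P.c ⟨0, h0⟩) (fun j => hP _ _)).out 0 2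
      exact e1.2 ⟨hK, fun h => by omega⟩

end Pool.Agent.Results.MP_a78b9e_ag.EqualCoefficients
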